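import Mathlib
import Pool.Agent.Q209.W1

/-!
Generic functions, the construction of a matrix by recursion on `ω₁`, and enumerations.
-/

set_option autoImplicit false

namespace Q209.DSp

open Set Cardinal Q209.Om

/-- A function `x : W → 2` which is `false` on `D`, extends a given finite function and meets
countably many families of finite functions. -/
theorem exists_generic {W ι : Type} [Countable ι] (D : Set W) (P0 N0 : Finset W)
    (h0 : Disjoint P0 N0) (hD : ∀ w ∈ P0, w ∉ D) (T : ι → Set (Finset W × Finset W))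
    (hT : ∀ k (A : Finset W), ∃ c ∈ T k, Disjoint c.1 c.2 ∧ (Disjoint c.1 A ∧ Disjoint c.2 A) ∧
      ∀ w ∈ c.1, w ∉ D) :
    ∃ x : W → Bool, (∀ w ∈ P0, x w = true) ∧ (∀ w ∈ N0, x w = false) ∧
      (∀ w ∈ D, x w = false) ∧
      ∀ k, ∃ c ∈ T k, (∀ w ∈ c.1, x w = true) ∧ ∀ w ∈ c.2, x w = false := by
  classical
  rcases isEmpty_or_nonempty ι with hι | hι
  · refine ⟨fun w => decide (w ∈ P0), fun w hw => by simpa using hw, fun w hw => ?_,
      fun w hw => ?_, fun k => (hι.false k).elim⟩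
    · simpa using fun h => (Finset.disjoint_left.1 h0 h hw)
    · simpa using fun h => hD w h hw
  obtain ⟨e, he⟩ := exists_surjective_nat ι
  choose c hcT hc1 hc2 hc3 using hT
  let s : ℕ → Finset W × Finset W := fun m => Nat.rec (P0, N0) (fun m p =>
    (p.1 ∪ (c (e m) (p.1 ∪ p.2)).1, p.2 ∪ (c (e m) (p.1 ∪ p.2)).2)) m
  have s0 : s 0 = (P0, N0) := rfl
  have sS : ∀ m, s (m + 1) = ((s m).1 ∪ (c (e m) ((s m).1 ∪ (s m).2)).1,
    (s m).2 ∪ (c (e m) ((s m).1 ∪ (s m).2)).2) := fun m => rfl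
  have hmono1 : Monotone fun m => (s m).1 := monotone_nat_of_le_succ fun m => by
    rw [sS]; exact Finset.subset_union_left
  have hmono2 : Monotone fun m => (s m).2 := monotone_nat_of_le_succ fun m => by
    rw [sS]; exact Finset.subset_union_left
  have hdisj : ∀ m, Disjoint (s m).1 (s m).2 := by
    intro m
    induction m with
    | zero => exact h0
    | succ m ih =>
      rw [sS]
      have h1 := hc1 (e m) ((s m).1 ∪ (s m).2)
      obtain ⟨h2, h3⟩ := hc2 (e m) ((s m).1 ∪ (s m).2)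
      rw [Finset.disjoint_union_right] at h2 h3
      simp only [Finset.disjoint_union_left, Finset.disjoint_union_right]
      exact ⟨⟨ih, h2.2⟩, h3.1.symm, h1⟩
  have hsD : ∀ m, ∀ w ∈ (s m).1, w ∉ D := by
    intro m
    induction m with
    | zero => exact hD
    | succ m ih =>
      rw [sS]
      intro w hw
      rcases Finset.mem_union.1 hw with hw | hw
      · exact ih w hw
      · exact hc3 _ _ w hw
  have hneg : ∀ m, ∀ w ∈ (s m).2, ¬ ∃ l, w ∈ (s l).1 := by
    rintro m w hw ⟨l, hl⟩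
    exact Finset.disjoint_left.1 (hdisj (max m l)) (hmono1 (le_max_right m l) hl)
      (hmono2 (le_max_left m l) hw)
  refine ⟨fun w => decide (∃ m, w ∈ (s m).1), fun w hw => ?_, fun w hw => ?_, fun w hw => ?_,
    fun k => ?_⟩
  · simpa using ⟨0, hw⟩
  · simpa using fun m hm => hneg 0 w hw ⟨m, hm⟩
  · simpa using fun m hm => hsD m w hm hw
  · obtain ⟨m, rfl⟩ := he k
    refine ⟨_, hcT (e m) ((s m).1 ∪ (s m).2), fun w hw => ?_, fun w hw => ?_⟩
    · have : w ∈ (s (m + 1)).1 := by rw [sS]; exact Finset.mem_union_right _ hw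
      simpa using ⟨m + 1, this⟩
    · have : w ∈ (s (m + 1)).2 := by rw [sS]; exact Finset.mem_union_right _ hw
      simpa using fun l hl => hneg (m + 1) w this ⟨l, hl⟩

/-- The part of a matrix below `γ`. -/
noncomputable def trunc (γ : W1) (M : W1 → W1 → Bool) : W1 → W1 → Bool :=
  fun ξ δ => if ξ < γ ∧ δ < γ then M ξ δ else true

/-- A matrix is constructed by recursion; at stage `γ` one finds the new row and the new column. -/
theorem exists_matrix (Q : W1 → (W1 → W1 → Bool) → (W1 → Bool) → (W1 → Bool) → Prop)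
    (hQ : ∀ γ A, ∃ x f, Q γ A x f) :
    ∃ M : W1 → W1 → Bool, (∀ ξ, M ξ ξ = true) ∧
      ∀ γ, ∃ x f, Q γ (trunc γ M) x f ∧ (∀ δ < γ, M γ δ = x δ) ∧ ∀ ξ < γ, M ξ γ = f ξ := by
  classical
  choose X F hXF using hQ
  -- the matrix built from the rows and columns below `γ`
  let mat : (r : W1 → (W1 → Bool) × (W1 → Bool)) → W1 → W1 → Bool := fun r ξ δ =>
    if δ < ξ then (r ξ).1 δ else if ξ < δ then (r δ).2 ξ else true
  let step : (γ : W1) → ((γ' : W1) → γ' < γ → (W1 → Bool) × (W1 → Bool)) →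
      (W1 → Bool) × (W1 → Bool) := fun γ r =>
    let r' : W1 → (W1 → Bool) × (W1 → Bool) := fun γ' =>
      if h : γ' < γ then r γ' h else (fun _ => true, fun _ => true)
    (X γ (trunc γ (mat r')), F γ (trunc γ (mat r')))
  let R : W1 → (W1 → Bool) × (W1 → Bool) :=
    (wellFounded_lt (α := W1)).fix step
  have hR : ∀ γ, R γ = step γ fun γ' _ => R γ' := fun γ =>
    (wellFounded_lt (α := W1)).fix_eq step γ
  have htr : ∀ γ, trunc γ (mat fun γ' => if h : γ' < γ then R γ' else (fun _ => true, fun _ => true))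
      = trunc γ (mat R) := by
    intro γ
    funext ξ δ
    unfold trunc
    by_cases h : ξ < γ ∧ δ < γ
    · rw [if_pos h, if_pos h]
      simp only [mat, h.1, h.2, dite_true]
    · rw [if_neg h, if_neg h]
  have hR' : ∀ γ, R γ = (X γ (trunc γ (mat R)), F γ (trunc γ (mat R))) := by
    intro γ
    rw [hR]
    simp only [step]
    rw [htr]
  refine ⟨mat R, fun ξ => ?_, fun γ => ⟨(R γ).1, (R γ).2, ?_, ?_, ?_⟩⟩
  · simp [mat]
  · rw [hR' γ]
    exact hXF γ _
  · intro δ hδ
    simp only [mat, hδ, if_true]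
  · intro ξ hξ
    simp only [mat, hξ, not_lt.2 hξ.le, if_false, if_true]

theorem exists_surj {α : Type} [Nonempty α] (h : #α ≤ aleph 1) :
    ∃ s : W1 → α, Function.Surjective s := by
  rw [← mk_W1] at h
  obtain ⟨f⟩ := h
  exact ⟨Function.invFun f, Function.invFun_surjective f.injective⟩

/-- An enumeration in which each element occurs at unboundedly many places. -/
theorem exists_cofinal_enum {α : Type} [Nonempty α] (h : #α ≤ aleph 1) :
    ∃ s : W1 → α, ∀ a β, ∃ γ, β < γ ∧ s γ = a := by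
  have h1 : #(α × W1) ≤ aleph 1 := by
    rw [mk_prod, lift_id, lift_id, mk_W1]
    exact (mul_le_mul' h le_rfl).trans_eq (mul_eq_self (aleph0_le_aleph 1))
  obtain ⟨w0⟩ : Nonempty W1 := by
    rw [← mk_ne_zero_iff, mk_W1]
    exact (aleph_pos 1).ne'
  have : Nonempty (α × W1) := ⟨Classical.arbitrary α, w0⟩
  obtain ⟨s, hs⟩ := exists_surj h1
  refine ⟨fun γ => (s γ).1, fun a β => ?_⟩
  by_contra hcon
  push Not at hcon
  have h2 : (univ : Set W1) ⊆ (fun γ => (s γ).2) '' Iic β := by
    intro w _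
    obtain ⟨γ, hγ⟩ := hs (a, w)
    refine ⟨γ, ?_, congrArg Prod.snd hγ⟩
    by_contra h3
    exact hcon γ (not_le.1 h3) (congrArg Prod.fst hγ)
  have := countable_Iic β
  have h3 : (univ : Set W1).Countable := ((Set.countable_coe_iff.1 this).image _).mono h2
  have h4 : #W1 ≤ ℵ₀ := by
    rw [mk_le_aleph0_iff]
    exact Set.countable_univ_iff.1 h3
  rw [mk_W1] at h4
  exact absurd h4 (not_le.2 aleph0_lt_aleph_one)

end Q209.DSp
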