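import Mathlib
import Pool.Agent.Q209.DSp.Gen

/-!
The construction of the matrix under CH.
-/

set_option autoImplicit false

namespace Q209.DSp

open Set Cardinal Q209.Om

/-- `a` codes a sequence of pairwise disjoint injective `n`-tuples `a i 0, …, a i (n - 1)`. -/
def Good (n : ℕ) (a : ℕ → ℕ → W1) : Prop :=
  ∀ i j i' j', j < n → j' < n → a i j = a i' j' → i = i' ∧ j = j'

/-- `E` is a discrete set of points, as witnessed by coordinates in `C`. -/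
def DiscIn (A : W1 → W1 → Bool) (C : Set W1) (E : Set W1) : Prop :=
  ∀ α ∈ E, ∃ S : Finset W1, (∀ δ ∈ S, δ ∈ C) ∧
    ∀ α' ∈ E, (∀ δ ∈ S, A α' δ = A α δ) → α' = α

/-- `D` is a finite union of discrete sets of points. -/
def FinDisc (A : W1 → W1 → Bool) (C : Set W1) (D : Set W1) : Prop :=
  ∃ (m : ℕ) (E : Fin m → Set W1), (∀ j, DiscIn A C (E j)) ∧ D = ⋃ j, E j

theorem good_finite {n : ℕ} {a : ℕ → ℕ → W1} (h : Good n a) (A : Finset W1) :
    {i | ∃ j < n, a i j ∈ A}.Finite := by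
  classical
  have h1 : {i | ∃ j < n, a i j ∈ A} ⊆ ⋃ w ∈ A, {i | ∃ j < n, a i j = w} := by
    rintro i ⟨j, hj, hw⟩
    exact mem_biUnion hw ⟨j, hj, rfl⟩
  refine Set.Finite.subset (Set.Finite.biUnion A.finite_toSet fun w _ => ?_) h1
  apply Set.Subsingleton.finite
  rintro i ⟨j, hj, hw⟩ i' ⟨j', hj', hw'⟩
  exact (h i j i' j' hj hj' (hw.trans hw'.symm)).1

theorem generic_seq {ι : Type} [Countable ι] (D : Set W1) (P0 N0 : Finset W1)
    (h0 : Disjoint P0 N0) (hD : ∀ w ∈ P0, w ∉ D) (n : ι → ℕ) (a : ι → ℕ → ℕ → W1)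
    (I : ι → Set ℕ) (b : ι → Finset ℕ) (hg : ∀ k, Good (n k) (a k)) (hI : ∀ k, (I k).Infinite)
    (hID : ∀ k, ∀ i ∈ I k, ∀ j < n k, a k i j ∉ D) :
    ∃ x : W1 → Bool, (∀ w ∈ P0, x w = true) ∧ (∀ w ∈ N0, x w = false) ∧
      (∀ w ∈ D, x w = false) ∧
      ∀ k, {i | i ∈ I k ∧ ∀ j < n k, (x (a k i j) = true ↔ j ∈ b k)}.Infinite := by
  classical
  let P : ι → ℕ → Finset W1 := fun k i => ((Finset.range (n k)).filter (· ∈ b k)).image (a k i)
  let N : ι → ℕ → Finset W1 := fun k i => ((Finset.range (n k)).filter (· ∉ b k)).image (a k i)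
  obtain ⟨x, hx1, hx2, hx3, hx4⟩ := exists_generic (ι := ι × Finset ℕ) D P0 N0 h0 hD
    (fun k => {c | ∃ i ∈ I k.1, i ∉ k.2 ∧ c = (P k.1 i, N k.1 i)}) (by
      rintro ⟨k, B⟩ A
      have h1 : (I k \ ((B : Set ℕ) ∪ {i | ∃ j < n k, a k i j ∈ A})).Infinite :=
        (hI k).sdiff (B.finite_toSet.union (good_finite (hg k) A))
      obtain ⟨i, hi, hi2⟩ := h1.nonempty
      rw [mem_union, not_or] at hi2
      refine ⟨_, ⟨i, hi, fun h => hi2.1 h, rfl⟩, ?_, ⟨?_, ?_⟩, ?_⟩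
      · rw [Finset.disjoint_left]
        rintro w hw hw'
        simp only [P, N, Finset.mem_image, Finset.mem_filter, Finset.mem_range] at hw hw'
        obtain ⟨j, ⟨hj, hjb⟩, rfl⟩ := hw
        obtain ⟨j', ⟨hj', hjb'⟩, hjj⟩ := hw'
        rw [(hg k i j' i j hj' hj hjj).2] at hjb'
        exact hjb' hjb
      · rw [Finset.disjoint_left]
        rintro w hw hw'
        simp only [P, Finset.mem_image, Finset.mem_filter, Finset.mem_range] at hw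
        obtain ⟨j, ⟨hj, hjb⟩, rfl⟩ := hw
        exact hi2.2 ⟨j, hj, hw'⟩
      · rw [Finset.disjoint_left]
        rintro w hw hw'
        simp only [N, Finset.mem_image, Finset.mem_filter, Finset.mem_range] at hw
        obtain ⟨j, ⟨hj, hjb⟩, rfl⟩ := hw
        exact hi2.2 ⟨j, hj, hw'⟩
      · rintro w hw
        simp only [P, Finset.mem_image, Finset.mem_filter, Finset.mem_range] at hw
        obtain ⟨j, ⟨hj, hjb⟩, rfl⟩ := hw
        exact hID k i hi j hj)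
  refine ⟨x, hx1, hx2, hx3, fun k hfin => ?_⟩
  obtain ⟨c, ⟨i, hi, hiB, rfl⟩, hP, hN⟩ := hx4 (k, hfin.toFinset)
  apply hiB
  rw [Set.Finite.mem_toFinset]
  refine ⟨hi, fun j hj => ⟨fun h => ?_, fun h => ?_⟩⟩
  · by_contra hjb
    have : a k i j ∈ N k i := Finset.mem_image.2 ⟨j, Finset.mem_filter.2
      ⟨Finset.mem_range.2 hj, hjb⟩, rfl⟩
    rw [hN _ this] at h
    exact Bool.false_ne_true h
  · exact hP _ (Finset.mem_image.2 ⟨j, Finset.mem_filter.2 ⟨Finset.mem_range.2 hj, h⟩, rfl⟩)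

theorem countable_finsets {α : Type*} {S : Set α} (hS : S.Countable) :
    {a : Finset α | ∀ x ∈ a, x ∈ S}.Countable := by
  classical
  have := hS.to_subtype
  have h : {a : Finset α | ∀ x ∈ a, x ∈ S} ⊆
      Set.range (fun b : Finset S => b.map (Function.Embedding.subtype _)) := by
    intro a ha
    refine ⟨a.subtype (· ∈ S), ?_⟩
    exact Finset.subtype_map_of_mem (fun x hx => ha x hx)
  exact (Set.countable_range _).mono h

open Classical in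
/-- The set which the new point of stage `γ` has to avoid. -/
noncomputable def DD (dd : W1 → ℕ → W1) (γ : W1) (A : W1 → W1 → Bool) : Set W1 :=
  if range (dd γ) ⊆ Iio γ ∧ FinDisc A (Iio γ) (range (dd γ)) then range (dd γ) else ∅

/-- The requirements on the row of stage `γ`. -/
def RowQ (E : W1 → ℕ × (ℕ → ℕ → W1)) (dd : W1 → ℕ → W1) (γ : W1) (A : W1 → W1 → Bool)
    (x : W1 → Bool) : Prop :=
  (∀ α ∈ DD dd γ A, x α = false) ∧
  ∀ ν < γ, ∀ b : Finset ℕ, Good (E ν).1 (E ν).2 →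
    {i | ∀ j < (E ν).1, (E ν).2 i j ∉ DD dd γ A}.Infinite →
    {i | ∀ j < (E ν).1, (x ((E ν).2 i j) = true ↔ j ∈ b)}.Infinite

/-- The requirements on the column of stage `γ`. -/
def ColQ (E : W1 → ℕ × (ℕ → ℕ → W1)) (pr : W1 → W1 × W1) (γ : W1) (A : W1 → W1 → Bool)
    (f : W1 → Bool) : Prop :=
  ((pr γ).1 ≠ (pr γ).2 → f (pr γ).1 = true ∧ f (pr γ).2 = false) ∧
  ∀ ν < γ, ∀ S : Finset W1, (∀ δ ∈ S, δ < γ) → ∀ c : Finset (W1 × ℕ), (∀ p ∈ c, p.1 < γ) →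
    ∀ b : Finset ℕ, Good (E ν).1 (E ν).2 →
    {i | ∀ δ ∈ S, ∀ j < (E ν).1, (A ((E ν).2 i j) δ = true ↔ (δ, j) ∈ c)}.Infinite →
    {i | (∀ δ ∈ S, ∀ j < (E ν).1, (A ((E ν).2 i j) δ = true ↔ (δ, j) ∈ c)) ∧
      ∀ j < (E ν).1, (f ((E ν).2 i j) = true ↔ j ∈ b)}.Infinite

theorem exists_row (E : W1 → ℕ × (ℕ → ℕ → W1)) (dd : W1 → ℕ → W1) (γ : W1)
    (A : W1 → W1 → Bool) : ∃ x, RowQ E dd γ A x := by
  classical
  have hcγ := countable_Iio γ
  let ι : Type := {k : (Iio γ) × Finset ℕ // Good (E k.1).1 (E k.1).2 ∧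
    {i | ∀ j < (E k.1).1, (E k.1).2 i j ∉ DD dd γ A}.Infinite}
  obtain ⟨x, -, -, hx, hx2⟩ := generic_seq (ι := ι) (DD dd γ A) ∅ ∅ (by simp) (by simp)
    (fun k => (E k.1.1).1) (fun k => (E k.1.1).2)
    (fun k => {i | ∀ j < (E k.1.1).1, (E k.1.1).2 i j ∉ DD dd γ A}) (fun k => k.1.2)
    (fun k => k.2.1) (fun k => k.2.2) (fun k i hi => hi)
  refine ⟨x, hx, fun ν hν b hg hinf => ?_⟩
  exact (hx2 ⟨⟨⟨ν, hν⟩, b⟩, hg, hinf⟩).mono fun i hi => hi.2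

theorem exists_col (E : W1 → ℕ × (ℕ → ℕ → W1)) (pr : W1 → W1 × W1) (γ : W1)
    (A : W1 → W1 → Bool) : ∃ f, ColQ E pr γ A f := by
  classical
  have hcγ : (Iio γ).Countable := Set.countable_coe_iff.1 (countable_Iio γ)
  let K : Set (W1 × Finset W1 × Finset (W1 × ℕ) × Finset ℕ) :=
    {k | k.1 < γ ∧ (∀ δ ∈ k.2.1, δ < γ) ∧ (∀ p ∈ k.2.2.1, p.1 < γ) ∧
      Good (E k.1).1 (E k.1).2 ∧
      {i | ∀ δ ∈ k.2.1, ∀ j < (E k.1).1, (A ((E k.1).2 i j) δ = true ↔ (δ, j) ∈ k.2.2.1)}.Infinite}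
  have hK : K.Countable := by
    have h1 : {S : Finset W1 | ∀ δ ∈ S, δ ∈ Iio γ}.Countable := countable_finsets hcγ
    have h2 : {c : Finset (W1 × ℕ) | ∀ p ∈ c, p ∈ (Iio γ) ×ˢ (univ : Set ℕ)}.Countable :=
      countable_finsets (hcγ.prod countable_univ)
    refine (hcγ.prod (h1.prod (h2.prod (countable_univ (α := Finset ℕ))))).mono ?_
    rintro ⟨ν, S, c, b⟩ ⟨h1, h2, h3, -⟩
    exact ⟨h1, h2, fun p hp => ⟨h3 p hp, mem_univ _⟩, mem_univ _⟩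
  have := hK.to_subtype
  obtain ⟨f, hf1, hf2, -, hf3⟩ := generic_seq (ι := K) ∅
    (if (pr γ).1 ≠ (pr γ).2 then {(pr γ).1} else ∅)
    (if (pr γ).1 ≠ (pr γ).2 then {(pr γ).2} else ∅)
    (by
      split_ifs with h
      · rw [Finset.disjoint_singleton]; exact h
      · simp) (fun _ _ h => h)
    (fun k => (E k.1.1).1) (fun k => (E k.1.1).2)
    (fun k => {i | ∀ δ ∈ k.1.2.1, ∀ j < (E k.1.1).1,
      (A ((E k.1.1).2 i j) δ = true ↔ (δ, j) ∈ k.1.2.2.1)}) (fun k => k.1.2.2.2)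
    (fun k => k.2.2.2.2.1) (fun k => k.2.2.2.2.2) (fun k i hi j hj h => h)
  refine ⟨f, fun h => ⟨hf1 _ (by rw [if_pos h]; simp), hf2 _ (by rw [if_pos h]; simp)⟩,
    fun ν hν S hS c hc b hg hinf => ?_⟩
  exact (hf3 ⟨⟨ν, S, c, b⟩, hν, hS, hc, hg, hinf⟩)

end Q209.DSp
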