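import Mathlib
import Pool.Agent.Q209.DSp.Constr

/-!
The matrix: its properties and its existence under CH.
-/

set_option autoImplicit false

namespace Q209.DSp

open Set Cardinal Q209.Om

/-- The properties of the matrix `M ξ δ`, the value of the point `ξ` at the coordinate `δ`. -/
structure Mat (M : W1 → W1 → Bool) : Prop where
  diag : ∀ ξ, M ξ ξ = true
  sep : ∀ ξ η, ξ ≠ η → ∃ δ, M ξ δ = true ∧ M η δ = false
  kill : ∀ D : Set W1, D.Countable → FinDisc M univ D → ∃ γ, ∀ α ∈ D, M γ α = false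
  row : ∀ (n : ℕ) (a : ℕ → ℕ → W1), Good n a → ∃ β, ∀ γ, β ≤ γ → ∃ D, FinDisc M univ D ∧
    ({i | ∀ j < n, a i j ∉ D}.Infinite → ∀ b : Finset ℕ,
      ∃ i, ∀ j < n, (M γ (a i j) = true ↔ j ∈ b))
  col : ∀ (n : ℕ) (a : ℕ → ℕ → W1), Good n a → ∃ β, ∀ γ, β ≤ γ → ∀ S : Finset W1,
    (∀ δ ∈ S, δ < γ) → ∀ (c : Finset (W1 × ℕ)) (b : Finset ℕ),
    {i | ∀ δ ∈ S, ∀ j < n, (M (a i j) δ = true ↔ (δ, j) ∈ c)}.Infinite →
    {i | (∀ δ ∈ S, ∀ j < n, (M (a i j) δ = true ↔ (δ, j) ∈ c)) ∧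
      ∀ j < n, (M (a i j) γ = true ↔ j ∈ b)}.Infinite

theorem trunc_eq {γ : W1} (M : W1 → W1 → Bool) {ξ δ : W1} (h1 : ξ < γ) (h2 : δ < γ) :
    trunc γ M ξ δ = M ξ δ := if_pos ⟨h1, h2⟩

theorem finDisc_of_trunc {γ : W1} {M : W1 → W1 → Bool} {D : Set W1} (hD : D ⊆ Iio γ)
    (h : FinDisc (trunc γ M) (Iio γ) D) : FinDisc M univ D := by
  obtain ⟨m, E, hE, rfl⟩ := h
  refine ⟨m, E, fun j α hα => ?_, rfl⟩
  obtain ⟨S, hS, hS2⟩ := hE j α hα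
  have hlt : ∀ α' ∈ E j, α' < γ := fun α' hα' => hD (mem_iUnion.2 ⟨j, hα'⟩)
  refine ⟨S, fun _ _ => mem_univ _, fun α' hα' hagree => hS2 α' hα' fun δ hδ => ?_⟩
  rw [trunc_eq M (hlt α' hα') (hS δ hδ), trunc_eq M (hlt α hα) (hS δ hδ)]
  exact hagree δ hδ

theorem finDisc_trunc {M : W1 → W1 → Bool} {D : Set W1} (hD : D.Countable)
    (h : FinDisc M univ D) :
    ∃ β, ∀ γ, β < γ → D ⊆ Iio γ ∧ FinDisc (trunc γ M) (Iio γ) D := by
  classical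
  obtain ⟨m, E, hE, rfl⟩ := h
  have := hD.to_subtype
  choose S hS1 hS2 using hE
  -- a bound for the points and the coordinates
  have hb : ∃ β, ∀ j, ∀ α (hα : α ∈ E j), α < β ∧ ∀ δ ∈ S j α hα, δ < β := by
    have hEc : ∀ j, (E j).Countable := fun j => hD.mono (subset_iUnion E j)
    have : ∀ j, ∃ β, ∀ α (hα : α ∈ E j), α < β ∧ ∀ δ ∈ S j α hα, δ < β := by
      intro j
      have := (hEc j).to_subtype
      obtain ⟨b1, hb1⟩ := bdd fun α : E j => α.1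
      have h2 : ∀ α : E j, ∃ b, ∀ δ ∈ S j α.1 α.2, δ < b := by
        intro α
        obtain ⟨b, hb⟩ := bdd fun δ : S j α.1 α.2 => δ.1
        exact ⟨b, fun δ hδ => hb ⟨δ, hδ⟩⟩
      choose b2 hb2 using h2
      obtain ⟨b3, hb3⟩ := bdd b2
      exact ⟨max b1 b3, fun α hα => ⟨(hb1 ⟨α, hα⟩).trans_le (le_max_left _ _), fun δ hδ =>
        ((hb2 ⟨α, hα⟩ δ hδ).trans (hb3 ⟨α, hα⟩)).trans_le (le_max_right _ _)⟩⟩
    choose b hb using this
    obtain ⟨β, hβ⟩ := bdd b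
    exact ⟨β, fun j α hα => ⟨(hb j α hα).1.trans (hβ j), fun δ hδ =>
      ((hb j α hα).2 δ hδ).trans (hβ j)⟩⟩
  obtain ⟨β, hβ⟩ := hb
  refine ⟨β, fun γ hγ => ⟨?_, m, E, fun j α hα => ?_, rfl⟩⟩
  · intro α hα
    obtain ⟨j, hj⟩ := mem_iUnion.1 hα
    exact (hβ j α hj).1.trans hγ
  · refine ⟨S j α hα, fun δ hδ => ((hβ j α hα).2 δ hδ).trans hγ, fun α' hα' h => ?_⟩
    refine hS2 j α hα α' hα' fun δ hδ => ?_
    have h1 := h δ hδ
    rwa [trunc_eq M ((hβ j α' hα').1.trans hγ) (((hβ j α hα).2 δ hδ).trans hγ),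
      trunc_eq M ((hβ j α hα).1.trans hγ) (((hβ j α hα).2 δ hδ).trans hγ)] at h1

theorem exists_mat (hCH : continuum.{0} = aleph 1) : ∃ M, Mat M := by
  classical
  obtain ⟨w0⟩ : Nonempty W1 := by
    rw [← mk_ne_zero_iff, mk_W1]
    exact (aleph_pos 1).ne'
  have hne : Nonempty W1 := ⟨w0⟩
  have hc1 : #(ℕ × (ℕ → ℕ → W1)) ≤ aleph 1 := by
    simp only [mk_prod, mk_arrow, lift_id, mk_W1, mk_nat, ← hCH,
      continuum_power_aleph0, aleph0_mul_continuum, le_refl]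
  have hc2 : #(ℕ → W1) ≤ aleph 1 := by
    simp only [mk_arrow, lift_id, mk_W1, mk_nat, ← hCH,
      continuum_power_aleph0, le_refl]
  have hc3 : #(W1 × W1) ≤ aleph 1 := by
    rw [mk_prod, lift_id, mk_W1]
    exact (mul_eq_self (aleph0_le_aleph 1)).le
  obtain ⟨E, hE⟩ := exists_surj hc1
  obtain ⟨dd, hdd⟩ := exists_cofinal_enum hc2
  obtain ⟨pr, hpr⟩ := exists_cofinal_enum hc3
  obtain ⟨M, hM1, hM2⟩ := exists_matrix (fun γ A x f => RowQ E dd γ A x ∧ ColQ E pr γ A f)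
    (fun γ A => by
      obtain ⟨x, hx⟩ := exists_row E dd γ A
      obtain ⟨f, hf⟩ := exists_col E pr γ A
      exact ⟨x, f, hx, hf⟩)
  -- each sequence is taken into account from some stage on
  have hseq : ∀ (n : ℕ) (a : ℕ → ℕ → W1), ∃ β ν, E ν = (n, a) ∧ ν < β ∧ ∀ i, ∀ j, a i j < β := by
    intro n a
    obtain ⟨ν, hν⟩ := hE (n, a)
    obtain ⟨β, hβ⟩ := bdd fun p : ℕ × ℕ => a p.1 p.2
    obtain ⟨b, hb⟩ := exists_gt (max β ν)
    exact ⟨b, ν, hν, (le_max_right _ _).trans_lt hb, fun i j =>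
      (hβ (i, j)).trans ((le_max_left _ _).trans_lt hb)⟩
  refine ⟨M, hM1, ?_, ?_, ?_, ?_⟩
  · intro ξ η hne
    obtain ⟨γ, hγ, hγ2⟩ := hpr (ξ, η) (max ξ η)
    obtain ⟨x, f, ⟨-, hf⟩, -, hMf⟩ := hM2 γ
    have h1 := hf.1 (by rw [hγ2]; exact hne)
    rw [hγ2] at h1
    refine ⟨γ, ?_, ?_⟩
    · rw [hMf ξ ((le_max_left _ _).trans_lt hγ)]; exact h1.1
    · rw [hMf η ((le_max_right _ _).trans_lt hγ)]; exact h1.2
  · intro D hD hfd
    rcases D.eq_empty_or_nonempty with rfl | hne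
    · exact ⟨w0, fun α hα => absurd hα (notMem_empty _)⟩
    obtain ⟨d, rfl⟩ := hD.exists_eq_range hne
    obtain ⟨β, hβ⟩ := finDisc_trunc hD hfd
    obtain ⟨γ, hγ, hγ2⟩ := hdd d β
    obtain ⟨x, f, ⟨hx, -⟩, hMx, -⟩ := hM2 γ
    have h1 := hβ γ hγ
    have h2 : DD dd γ (trunc γ M) = range d := by
      unfold DD
      rw [hγ2, if_pos h1]
    refine ⟨γ, fun α hα => ?_⟩
    rw [hMx α (h1.1 hα)]
    exact hx.1 α (by rw [h2]; exact hα)
  · intro n a hg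
    obtain ⟨β, ν, hν, hνβ, hβ⟩ := hseq n a
    refine ⟨β, fun γ hγ => ?_⟩
    obtain ⟨x, f, ⟨hx, -⟩, hMx, -⟩ := hM2 γ
    refine ⟨DD dd γ (trunc γ M), ?_, fun hinf b => ?_⟩
    · unfold DD
      split_ifs with h
      · exact finDisc_of_trunc h.1 h.2
      · exact ⟨0, fun _ => ∅, fun j => j.elim0, by simp⟩
    · have h1 := hx.2 ν (hνβ.trans_le hγ) b
      rw [hν] at h1
      obtain ⟨i, hi⟩ := (h1 hg hinf).nonempty
      refine ⟨i, fun j hj => ?_⟩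
      rw [hMx _ ((hβ i j).trans_le hγ)]
      exact hi j hj
  · intro n a hg
    obtain ⟨β, ν, hν, hνβ, hβ⟩ := hseq n a
    refine ⟨β, fun γ hγ S hS c b hinf => ?_⟩
    obtain ⟨x, f, ⟨-, hf⟩, -, hMf⟩ := hM2 γ
    have h1 := hf.2 ν (hνβ.trans_le hγ) S hS (c.filter fun p => p.1 ∈ S)
      (fun p hp => hS _ (Finset.mem_filter.1 hp).2) b
    rw [hν] at h1
    have hav : ∀ i j, a i j < γ := fun i j => (hβ i j).trans_le hγ
    have key : ∀ i, (∀ δ ∈ S, ∀ j < n, (trunc γ M (a i j) δ = true ↔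
        (δ, j) ∈ c.filter fun p => p.1 ∈ S)) ↔
        ∀ δ ∈ S, ∀ j < n, (M (a i j) δ = true ↔ (δ, j) ∈ c) := by
      intro i
      refine forall_congr' fun δ => forall_congr' fun hδ => forall_congr' fun j =>
        forall_congr' fun hj => ?_
      rw [trunc_eq M (hav i j) (hS δ hδ), Finset.mem_filter]
      simp only [hδ, and_true]
    have h2 : {i | ∀ δ ∈ S, ∀ j < n, (trunc γ M (a i j) δ = true ↔
        (δ, j) ∈ c.filter fun p => p.1 ∈ S)}.Infinite := by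
      refine hinf.mono fun i hi => ?_
      exact (key i).2 hi
    refine (h1 hg h2).mono fun i hi => ⟨(key i).1 hi.1, fun j hj => ?_⟩
    rw [hMf _ (hav i j)]
    exact hi.2 j hj

end Q209.DSp
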