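import Mathlib
import Pool.Agent.Q209.DSp.Mat

/-!
Every family of pairwise disjoint tuples of points has a countable dense subfamily.
-/

set_option autoImplicit false

namespace Q209.DSp

open Set Cardinal Q209.Om

/-- Closing off under a function of finite sets. -/
theorem exists_closed (G : Finset W1 → W1) (β₀ : W1) :
    ∃ β, β₀ < β ∧ ∀ R : Finset W1, (∀ δ ∈ R, δ < β) → G R < β := by
  classical
  have hf : ∀ a : W1, ∃ b, ∀ R : Finset W1, (∀ δ ∈ R, δ ≤ a) → G R < b := by
    intro a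
    have h1 : (Iic a).Countable := Set.countable_coe_iff.1 (countable_Iic a)
    have h2 : {R : Finset W1 | ∀ δ ∈ R, δ ∈ Iic a}.Countable := countable_finsets h1
    have := h2.to_subtype
    obtain ⟨b, hb⟩ := bdd fun R : {R : Finset W1 | ∀ δ ∈ R, δ ∈ Iic a} => G R.1
    exact ⟨b, fun R hR => hb ⟨R, hR⟩⟩
  choose f hf using hf
  obtain ⟨β, hβ, hβ2⟩ := (club_closure f (max β₀ (G ∅))).1 β₀
  refine ⟨β, hβ2, fun R hR => ?_⟩
  rcases R.eq_empty_or_nonempty with rfl | hne
  · exact (le_max_right _ _).trans_lt hβ.1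
  · have h1 := hf (R.max' hne) R fun δ hδ => R.le_max' δ hδ
    exact h1.trans (hβ.2 _ (hR _ (R.max'_mem hne)))

/-- The code of a finite part of the values of a tuple. -/
noncomputable def code (M : W1 → W1 → Bool) {n : ℕ} (F : Fin n → W1) (S : Finset W1) :
    Finset (W1 × ℕ) :=
  (S ×ˢ Finset.range n).filter fun p => ∃ h : p.2 < n, M (F ⟨p.2, h⟩) p.1 = true

theorem mem_code {M : W1 → W1 → Bool} {n : ℕ} {F : Fin n → W1} {S : Finset W1} {δ : W1}
    (hδ : δ ∈ S) {j : ℕ} (hj : j < n) : (δ, j) ∈ code M F S ↔ M (F ⟨j, hj⟩) δ = true := by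
  simp only [code, Finset.mem_filter, Finset.mem_product, Finset.mem_range]
  exact ⟨fun h => h.2.2, fun h => ⟨⟨hδ, hj⟩, hj, h⟩⟩

/-- A sequence of tuples as a double sequence. -/
noncomputable def extd {n : ℕ} (a : ℕ → Fin n → W1) (w : W1) : ℕ → ℕ → W1 :=
  fun i j => if h : j < n then a i ⟨j, h⟩ else w

theorem extd_eq {n : ℕ} (a : ℕ → Fin n → W1) (w : W1) (i : ℕ) {j : ℕ} (h : j < n) :
    extd a w i j = a i ⟨j, h⟩ := dif_pos h

theorem good_extd {n : ℕ} (a : ℕ → Fin n → W1) (w : W1)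
    (ha : ∀ i j i' j', a i j = a i' j' → i = i' ∧ j = j') : Good n (extd a w) := by
  intro i j i' j' hj hj' h
  rw [extd_eq a w i hj, extd_eq a w i' hj'] at h
  obtain ⟨h1, h2⟩ := ha i _ i' _ h
  exact ⟨h1, by simpa using h2⟩

variable {M : W1 → W1 → Bool}

theorem hs (hM : Mat M) (n : ℕ) (𝒜 : Set (Fin n → W1)) (hinj : ∀ F ∈ 𝒜, Function.Injective F)
    (hdis : ∀ F ∈ 𝒜, ∀ F' ∈ 𝒜, ∀ j j', F j = F' j' → F = F') :
    ∃ 𝒜₀ ⊆ 𝒜, 𝒜₀.Countable ∧ ∀ F ∈ 𝒜, ∀ S : Finset W1, ∃ F' ∈ 𝒜₀,
      ∀ δ ∈ S, ∀ j, M (F' j) δ = M (F j) δ := by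
  classical
  obtain ⟨w0⟩ : Nonempty W1 := by
    rw [← mk_ne_zero_iff, mk_W1]
    exact (aleph_pos 1).ne'
  let C : Finset W1 → Finset (W1 × ℕ) → Set (Fin n → W1) := fun R c =>
    {F | F ∈ 𝒜 ∧ ∀ δ ∈ R, ∀ j : Fin n, (M (F j) δ = true ↔ (δ, j.1) ∈ c)}
  have hg : ∀ R c, ∃ g : W1, ((C R c).Finite → ∀ F ∈ C R c, ∀ j, F j < g) ∧
      ((C R c).Infinite → ∃ a : ℕ → Fin n → W1, (∀ i, a i ∈ C R c) ∧ (∀ i j, a i j < g) ∧
        ∀ γ, g ≤ γ → ∀ S : Finset W1,
          (∀ δ ∈ S, δ < γ) → ∀ (c : Finset (W1 × ℕ)) (b : Finset ℕ),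
          {i | ∀ δ ∈ S, ∀ j < n, (M (extd a w0 i j) δ = true ↔ (δ, j) ∈ c)}.Infinite →
          {i | (∀ δ ∈ S, ∀ j < n, (M (extd a w0 i j) δ = true ↔ (δ, j) ∈ c)) ∧
            ∀ j < n, (M (extd a w0 i j) γ = true ↔ j ∈ b)}.Infinite) := by
    intro R c
    by_cases hfin : (C R c).Finite
    · have := hfin.to_subtype
      obtain ⟨g, hg⟩ := bdd fun p : C R c × Fin n => p.1.1 p.2
      exact ⟨g, fun _ F hF j => hg (⟨F, hF⟩, j), fun h => absurd hfin h⟩
    · let e := Set.Infinite.natEmbedding (C R c) hfin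
      let a : ℕ → Fin n → W1 := fun i => (e i).1
      have ha : ∀ i, a i ∈ C R c := fun i => (e i).2
      have hgood : Good n (extd a w0) := by
        refine good_extd a w0 fun i j i' j' h => ?_
        have h1 : a i = a i' := hdis _ (ha i).1 _ (ha i').1 j j' h
        have h2 : i = i' := e.injective (Subtype.ext h1)
        subst h2
        exact ⟨rfl, hinj _ (ha i).1 h⟩
      obtain ⟨β, hβ⟩ := hM.col n _ hgood
      obtain ⟨b, hb⟩ := bdd fun p : ℕ × Fin n => a p.1 p.2
      refine ⟨max β b, fun h => absurd h hfin, fun _ => ⟨a, ha, fun i j =>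
        (hb (i, j)).trans_le (le_max_right _ _), fun γ hγ =>
        hβ γ ((le_max_left _ _).trans hγ)⟩⟩
  choose g hg1 hg2 using hg
  -- the bound for a finite set of coordinates
  have hG : ∀ R : Finset W1, ∃ G, ∀ c ∈ (R ×ˢ Finset.range n).powerset, g R c < G := by
    intro R
    obtain ⟨b, hb⟩ := bdd fun c : {c // c ∈ (R ×ˢ Finset.range n).powerset} => g R c.1
    exact ⟨b, fun c hc => hb ⟨c, hc⟩⟩
  choose G hG using hG
  obtain ⟨β, -, hβ⟩ := exists_closed G w0
  refine ⟨{F | F ∈ 𝒜 ∧ ∀ j, F j < β}, fun F hF => hF.1, ?_, ?_⟩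
  · have h1 : (Iio β).Countable := Set.countable_coe_iff.1 (countable_Iio β)
    have h2 : {F : Fin n → W1 | ∀ j, F j ∈ Iio β}.Countable := Set.countable_pi fun _ => h1
    exact h2.mono fun F hF => hF.2
  · intro F hF S
    let R := S.filter (· < β)
    have hR : ∀ δ ∈ R, δ < β := fun δ hδ => (Finset.mem_filter.1 hδ).2
    have hRS : ∀ δ ∈ R, δ ∈ S := fun δ hδ => (Finset.mem_filter.1 hδ).1
    let c := code M F R
    have hc : c ∈ (R ×ˢ Finset.range n).powerset := by
      rw [Finset.mem_powerset]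
      exact Finset.filter_subset _ _
    have hFC : F ∈ C R c := ⟨hF, fun δ hδ j => (mem_code hδ j.2).symm⟩
    have hgβ : g R c < β := (hG R c hc).trans (hβ R hR)
    by_cases hfin : (C R c).Finite
    · exact ⟨F, ⟨hF, fun j => (hg1 R c hfin F hFC j).trans hgβ⟩, fun _ _ _ => rfl⟩
    · obtain ⟨a, haC, hag, hcol⟩ := hg2 R c hfin
      have key : ∀ T : Finset W1, (∀ δ ∈ T, δ ∈ S ∧ β ≤ δ) →
          {i | ∀ δ ∈ R ∪ T, ∀ j < n, (M (extd a w0 i j) δ = true ↔
            (δ, j) ∈ code M F S)}.Infinite := by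
        intro T
        induction T using Finset.induction_on_max with
        | empty =>
          intro _
          refine infinite_univ.mono fun i _ => ?_
          intro δ hδ j hj
          rw [Finset.union_empty] at hδ
          rw [extd_eq a w0 i hj, (haC i).2 δ hδ ⟨j, hj⟩, mem_code hδ hj, mem_code (hRS δ hδ) hj]
        | insert x T hx ih =>
          intro hT
          have h1 := ih fun δ hδ => hT δ (Finset.mem_insert_of_mem hδ)
          have hxT := hT x (Finset.mem_insert_self x T)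
          have h2 := hcol x (hgβ.le.trans hxT.2) (R ∪ T) (by
            intro δ hδ
            rcases Finset.mem_union.1 hδ with h | h
            · exact (hR δ h).trans_le hxT.2
            · exact hx δ h) (code M F S)
            ((Finset.range n).filter fun j => (x, j) ∈ code M F S) h1
          refine h2.mono fun i hi => ?_
          intro δ hδ j hj
          have hδ' : δ ∈ R ∪ T ∨ δ = x := by
            rcases Finset.mem_union.1 hδ with h | h
            · exact Or.inl (Finset.mem_union_left _ h)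
            · rcases Finset.mem_insert.1 h with h | h
              · exact Or.inr h
              · exact Or.inl (Finset.mem_union_right _ h)
          rcases hδ' with h | rfl
          · exact hi.1 δ h j hj
          · rw [hi.2 j hj, Finset.mem_filter, Finset.mem_range]
            simp only [hj, true_and]
      have h1 := (key (S.filter fun δ => β ≤ δ) (fun δ hδ => by
        rw [Finset.mem_filter] at hδ; exact hδ)).nonempty
      obtain ⟨i, hi⟩ := h1
      refine ⟨a i, ⟨(haC i).1, fun j => (hag i j).trans hgβ⟩, fun δ hδ j => ?_⟩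
      have h2 : δ ∈ R ∪ S.filter fun δ => β ≤ δ := by
        rcases lt_or_ge δ β with h | h
        · exact Finset.mem_union_left _ (Finset.mem_filter.2 ⟨hδ, h⟩)
        · exact Finset.mem_union_right _ (Finset.mem_filter.2 ⟨hδ, h⟩)
      have h3 := hi δ h2 j.1 j.2
      rw [extd_eq a w0 i j.2, mem_code hδ j.2] at h3
      exact Bool.eq_iff_iff.2 h3

end Q209.DSp
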