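import Mathlib
import Pool.Agent.Q209.DSp.HS

/-!
Every uncountable family of pairwise disjoint tuples has a countable subfamily which is not covered
by finitely many discrete families; it is met by all but countably many points in each pattern.
-/

set_option autoImplicit false

namespace Q209.DSp

open Set Cardinal Q209.Om

variable {M : W1 → W1 → Bool}

/-- `F'` agrees with `F` at the coordinates in `S`. -/
def Agr (M : W1 → W1 → Bool) {n : ℕ} (S : Finset W1) (F F' : Fin n → W1) : Prop :=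
  ∀ δ ∈ S, ∀ j, M (F' j) δ = M (F j) δ

/-- Discrete families of tuples. -/
def DiscT (M : W1 → W1 → Bool) {n : ℕ} (E : Set (Fin n → W1)) : Prop :=
  ∀ F ∈ E, ∃ S : Finset W1, ∀ F' ∈ E, Agr M S F F' → F' = F

/-- The non-isolated points. -/
def der (M : W1 → W1 → Bool) {n : ℕ} (𝒜 : Set (Fin n → W1)) : Set (Fin n → W1) :=
  {F | F ∈ 𝒜 ∧ ∀ S : Finset W1, ∃ F' ∈ 𝒜, F' ≠ F ∧ Agr M S F F'}

theorem exists_sep (hM : Mat M) {n : ℕ} {F F' : Fin n → W1} (h : F' ≠ F) :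
    ∃ δ j, M (F' j) δ ≠ M (F j) δ := by
  obtain ⟨j, hj⟩ := Function.ne_iff.1 h
  obtain ⟨δ, h1, h2⟩ := hM.sep _ _ hj
  exact ⟨δ, j, by rw [h1, h2]; simp⟩

theorem discT_finite (hM : Mat M) {n : ℕ} {E : Set (Fin n → W1)} (hE : E.Finite) :
    DiscT M E := by
  classical
  intro F hF
  have h1 : ∀ F' : Fin n → W1, ∃ δ : Option W1, F' ≠ F → ∃ d j, δ = some d ∧
      M (F' j) d ≠ M (F j) d := by
    intro F'
    by_cases h : F' = F
    · exact ⟨none, fun h' => absurd h h'⟩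
    · obtain ⟨δ, j, h2⟩ := exists_sep hM h
      exact ⟨some δ, fun _ => ⟨δ, j, rfl, h2⟩⟩
  choose d hd using h1
  refine ⟨hE.toFinset.biUnion fun F' => (d F').toFinset, fun F' hF' hagr => ?_⟩
  by_contra hne
  obtain ⟨δ, j, h2, h3⟩ := hd F' hne
  apply h3
  refine hagr δ (Finset.mem_biUnion.2 ⟨F', hE.mem_toFinset.2 hF', ?_⟩) j
  rw [h2]
  simp

theorem der_uncountable (hM : Mat M) {n : ℕ} {𝒜 : Set (Fin n → W1)}
    (hinj : ∀ F ∈ 𝒜, Function.Injective F)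
    (hdis : ∀ F ∈ 𝒜, ∀ F' ∈ 𝒜, ∀ j j', F j = F' j' → F = F') (hunc : ¬ 𝒜.Countable) :
    ¬ (der M 𝒜).Countable := by
  intro hc
  apply hunc
  have hI : (𝒜 \ der M 𝒜).Countable := by
    obtain ⟨I₀, hI₀, hI₀c, hI₀d⟩ := hs hM n (𝒜 \ der M 𝒜) (fun F hF => hinj F hF.1)
      (fun F hF F' hF' => hdis F hF.1 F' hF'.1)
    refine hI₀c.mono fun F hF => ?_
    have h1 : ∃ S : Finset W1, ∀ F' ∈ 𝒜, Agr M S F F' → F' = F := by
      by_contra hcon
      push Not at hcon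
      apply hF.2
      refine ⟨hF.1, fun S => ?_⟩
      obtain ⟨F', h2, h3, h4⟩ := hcon S
      exact ⟨F', h2, h4, h3⟩
    obtain ⟨S, hS⟩ := h1
    obtain ⟨F', hF', hagr⟩ := hI₀d F hF S
    rw [← hS F' (hI₀ hF').1 hagr]
    exact hF'
  exact (hI.union hc).mono fun F hF => by
    by_cases h : F ∈ der M 𝒜
    · exact Or.inr h
    · exact Or.inl ⟨hF, h⟩

theorem levels (hM : Mat M) {n : ℕ} {𝒜 : Set (Fin n → W1)}
    (hinj : ∀ F ∈ 𝒜, Function.Injective F)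
    (hdis : ∀ F ∈ 𝒜, ∀ F' ∈ 𝒜, ∀ j j', F j = F' j' → F = F') (hunc : ¬ 𝒜.Countable) :
    ∃ 𝒜₀ ⊆ 𝒜, 𝒜₀.Countable ∧ ∀ (k : ℕ) (E : Fin k → Set (Fin n → W1)),
      (∀ i, DiscT M (E i)) → ∃ F ∈ 𝒜₀, ∀ i, F ∉ E i := by
  classical
  let Lv : ℕ → Set (Fin n → W1) := fun k => Nat.rec 𝒜 (fun _ B => der M B) k
  have Lv0 : Lv 0 = 𝒜 := rfl
  have LvS : ∀ k, Lv (k + 1) = der M (Lv k) := fun k => rfl
  have hLv : ∀ k, Lv k ⊆ 𝒜 ∧ ¬ (Lv k).Countable := by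
    intro k
    induction k with
    | zero => exact ⟨subset_rfl, hunc⟩
    | succ k ih =>
      rw [LvS]
      exact ⟨fun F hF => ih.1 hF.1, der_uncountable hM (fun F hF => hinj F (ih.1 hF))
        (fun F hF F' hF' => hdis F (ih.1 hF) F' (ih.1 hF')) ih.2⟩
  have hG : ∀ k, ∃ G ⊆ Lv k, G.Countable ∧ ∀ F ∈ Lv k, ∀ S : Finset W1, ∃ F' ∈ G,
      ∀ δ ∈ S, ∀ j, M (F' j) δ = M (F j) δ := fun k =>
    hs hM n (Lv k) (fun F hF => hinj F ((hLv k).1 hF))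
      (fun F hF F' hF' => hdis F ((hLv k).1 hF) F' ((hLv k).1 hF'))
  choose G hG1 hG2 hG3 using hG
  have key : ∀ k, ∀ F ∈ Lv k, ∀ (S : Finset W1) (E : Fin k → Set (Fin n → W1)),
      (∀ i, DiscT M (E i)) → ∃ F' ∈ ⋃ k, G k, Agr M S F F' ∧ ∀ i, F' ∉ E i := by
    intro k
    induction k with
    | zero =>
      intro F hF S E _
      obtain ⟨F', hF', hagr⟩ := hG3 0 F hF S
      exact ⟨F', mem_iUnion.2 ⟨0, hF'⟩, hagr, fun i => i.elim0⟩
    | succ k ih =>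
      intro F hF S E hE
      obtain ⟨F₁, hF₁, hagr₁⟩ := hG3 (k + 1) F hF S
      by_cases hcase : ∀ i, F₁ ∉ E i
      · exact ⟨F₁, mem_iUnion.2 ⟨k + 1, hF₁⟩, hagr₁, hcase⟩
      push Not at hcase
      obtain ⟨i, hi⟩ := hcase
      obtain ⟨S₁, hS₁⟩ := hE i F₁ hi
      obtain ⟨-, hder⟩ := hG1 (k + 1) hF₁
      obtain ⟨F₂, hF₂, hne, hagr₂⟩ := hder (S ∪ S₁)
      obtain ⟨δ, j, hδ⟩ := exists_sep hM hne
      obtain ⟨F', hF', hagr', hF'E⟩ := ih F₂ hF₂ (S ∪ S₁ ∪ {δ}) (fun l => E (i.succAbove l))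
        (fun l => hE _)
      refine ⟨F', hF', fun d hd l => ?_, fun l => ?_⟩
      · rw [hagr' d (Finset.mem_union_left _ (Finset.mem_union_left _ hd)) l,
          hagr₂ d (Finset.mem_union_left _ hd) l, hagr₁ d hd l]
      · rcases Fin.eq_self_or_eq_succAbove i l with rfl | ⟨l', rfl⟩
        · intro hmem
          have h1 : F' = F₁ := hS₁ F' hmem fun d hd l' => by
            rw [hagr' d (Finset.mem_union_left _ (Finset.mem_union_right _ hd)) l',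
              hagr₂ d (Finset.mem_union_right _ hd) l']
          apply hδ
          rw [← hagr' δ (Finset.mem_union_right _ (Finset.mem_singleton_self δ)) j, h1]
        · exact hF'E l'
  refine ⟨⋃ k, G k, iUnion_subset fun k => (hG1 k).trans (hLv k).1, countable_iUnion hG2,
    fun k E hE => ?_⟩
  obtain ⟨F, hF⟩ : (Lv k).Nonempty := by
    by_contra h
    rw [not_nonempty_iff_eq_empty] at h
    exact (hLv k).2 (by rw [h]; exact countable_empty)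
  obtain ⟨F', hF', -, h1⟩ := key k F hF ∅ E hE
  exact ⟨F', hF', h1⟩

/-- The family `𝒜` has a countable subfamily `𝒜₀` such that each pattern is realized on a member of
`𝒜₀` by each of the points from some point on. -/
theorem hfcw (hM : Mat M) {n : ℕ} {𝒜 : Set (Fin n → W1)}
    (hinj : ∀ F ∈ 𝒜, Function.Injective F)
    (hdis : ∀ F ∈ 𝒜, ∀ F' ∈ 𝒜, ∀ j j', F j = F' j' → F = F') (hunc : ¬ 𝒜.Countable) :
    ∃ 𝒜₀ ⊆ 𝒜, 𝒜₀.Countable ∧ ∃ β, ∀ γ, β ≤ γ → ∀ b : Fin n → Bool,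
      ∃ F ∈ 𝒜₀, ∀ j, M γ (F j) = b j := by
  classical
  obtain ⟨w0⟩ : Nonempty W1 := by
    rw [← mk_ne_zero_iff, mk_W1]
    exact (aleph_pos 1).ne'
  obtain ⟨𝒜₀, h𝒜₀, hc, hlev⟩ := levels hM hinj hdis hunc
  have hlev' : ∀ (ι : Type) [Fintype ι] (E : ι → Set (Fin n → W1)), (∀ i, DiscT M (E i)) →
      ∃ F ∈ 𝒜₀, ∀ i, F ∉ E i := by
    intro ι _ E hE
    obtain ⟨F, hF, h⟩ := hlev (Fintype.card ι) (fun i => E ((Fintype.equivFin ι).symm i))
      fun i => hE _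
    refine ⟨F, hF, fun i => ?_⟩
    have := h (Fintype.equivFin ι i)
    rwa [Equiv.symm_apply_apply] at this
  have hinf : 𝒜₀.Infinite := by
    intro hfin
    obtain ⟨F, hF, h⟩ := hlev' Unit (fun _ => 𝒜₀) (fun _ => discT_finite hM hfin)
    exact h () hF
  have := hc.to_subtype
  have := hinf.to_subtype
  obtain ⟨e⟩ : Nonempty (ℕ ≃ 𝒜₀) := by
    obtain ⟨d⟩ := nonempty_denumerable 𝒜₀
    exact ⟨(Denumerable.eqv 𝒜₀).symm⟩
  let a : ℕ → Fin n → W1 := fun i => (e i).1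
  have ha : ∀ i, a i ∈ 𝒜₀ := fun i => (e i).2
  have hgood : Good n (extd a w0) := by
    refine good_extd a w0 fun i j i' j' h => ?_
    have h1 : a i = a i' := hdis _ (h𝒜₀ (ha i)) _ (h𝒜₀ (ha i')) j j' h
    have h2 : i = i' := e.injective (Subtype.ext h1)
    subst h2
    exact ⟨rfl, hinj _ (h𝒜₀ (ha i)) h⟩
  obtain ⟨β, hβ⟩ := hM.row n _ hgood
  refine ⟨𝒜₀, h𝒜₀, hc, β, fun γ hγ b => ?_⟩
  obtain ⟨D, ⟨m, Dl, hDl, rfl⟩, hD⟩ := hβ γ hγ
  have h1 : {i | ∀ j < n, extd a w0 i j ∉ ⋃ l, Dl l}.Infinite := by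
    intro hfin
    let Z : Set (Fin n → W1) := a '' {i | ∀ j < n, extd a w0 i j ∉ ⋃ l, Dl l}
    have hZ : Z.Finite := hfin.image a
    obtain ⟨F, hF, hFE⟩ := hlev' (Option (Fin n × Fin m)) (fun o => match o with
      | none => Z
      | some p => {F | F ∈ 𝒜₀ ∧ F p.1 ∈ Dl p.2}) (by
        rintro (_ | ⟨j, l⟩)
        · exact discT_finite hM hZ
        · rintro F ⟨hF, hFD⟩
          obtain ⟨S, -, hS⟩ := hDl l (F j) hFD
          refine ⟨S, fun F' hF' hagr => ?_⟩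
          exact hdis _ (h𝒜₀ hF'.1) _ (h𝒜₀ hF) j j (hS _ hF'.2 fun δ hδ => hagr δ hδ j))
    obtain ⟨i, hi⟩ := e.surjective ⟨F, hF⟩
    have hai : a i = F := congrArg Subtype.val hi
    apply hFE none
    refine ⟨i, fun j hj hmem => ?_, hai⟩
    rw [extd_eq a w0 i hj, hai] at hmem
    obtain ⟨l, hl⟩ := mem_iUnion.1 hmem
    exact hFE (some (⟨j, hj⟩, l)) ⟨hF, hl⟩
  obtain ⟨i, hi⟩ := hD h1 ((Finset.range n).filter fun j => ∃ h : j < n, b ⟨j, h⟩ = true)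
  refine ⟨a i, ha i, fun j => ?_⟩
  have h2 := hi j.1 j.2
  rw [extd_eq a w0 i j.2, Finset.mem_filter, Finset.mem_range] at h2
  refine Bool.eq_iff_iff.2 (h2.trans ⟨fun h => h.2.2, fun h => ⟨j.2, j.2, h⟩⟩)

end Q209.DSp
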