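import Mathlib
import Pool.Agent.Q209.DSp.Lev

/-!
The space is hereditarily Lindelöf.
-/

set_option autoImplicit false

namespace Q209.DSp

open Set Cardinal Q209.Om

variable {M : W1 → W1 → Bool}

/-- The increasing enumeration of a finite set with `n` elements. -/
noncomputable def enm (w : W1) (T : Finset W1) (n : ℕ) : Fin n → W1 :=
  fun j => if h : T.card = n then T.orderEmbOfFin h j else w

theorem enm_eq (w : W1) {T : Finset W1} {n : ℕ} (h : T.card = n) (j : Fin n) :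
    enm w T n j = T.orderEmbOfFin h j := dif_pos h

theorem enm_mem (w : W1) {T : Finset W1} {n : ℕ} (h : T.card = n) (j : Fin n) :
    enm w T n j ∈ T := by
  rw [enm_eq w h]; exact Finset.orderEmbOfFin_mem T h j

theorem enm_surj (w : W1) {T : Finset W1} {n : ℕ} (h : T.card = n) {δ : W1} (hδ : δ ∈ T) :
    ∃ j, enm w T n j = δ := by
  have h1 : δ ∈ Set.range (T.orderEmbOfFin h) := by
    rw [Finset.range_orderEmbOfFin]; exact hδ
  obtain ⟨j, hj⟩ := h1
  exact ⟨j, by rw [enm_eq w h]; exact hj⟩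

theorem enm_inj (w : W1) {T : Finset W1} {n : ℕ} (h : T.card = n) :
    Function.Injective (enm w T n) := by
  intro i j hij
  rw [enm_eq w h, enm_eq w h] at hij
  exact (T.orderEmbOfFin h).injective hij

theorem club_unc {K : Set W1} (hK : IsClubSet K) : ¬ K.Countable := by
  intro hc
  have := hc.to_subtype
  obtain ⟨b, hb⟩ := bdd fun k : K => k.1
  obtain ⟨y, hy, hby⟩ := hK.1 b
  exact lt_asymm hby (hb ⟨y, hy⟩)

theorem hl_core (hM : Mat M) (Y : Set W1) (S : W1 → Finset W1) :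
    ∃ Y₀ ⊆ Y, Y₀.Countable ∧ ∀ ξ ∈ Y, ∃ η ∈ Y₀, ∀ δ ∈ S η, M ξ δ = M η δ := by
  classical
  obtain ⟨w0⟩ : Nonempty W1 := by
    rw [← mk_ne_zero_iff, mk_W1]
    exact (aleph_pos 1).ne'
  let C : Finset W1 → Finset W1 → ℕ → Finset ℕ → Set W1 := fun R p n b =>
    {η | η ∈ Y ∧ R ⊆ S η ∧ (∀ δ ∈ R, (M η δ = true ↔ δ ∈ p)) ∧ (S η \ R).card = n ∧
      ∀ j : Fin n, (M η (enm w0 (S η \ R) n j) = true ↔ j.1 ∈ b)}
  have hg : ∀ R p n b, ∃ g : W1, ∀ γ, g ≤ γ → (∃ η' ∈ C R p n b, ∀ δ ∈ S η' \ R, g ≤ δ) →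
      ∃ η ∈ C R p n b, η < g ∧ ∀ δ ∈ S η \ R, M γ δ = M η δ := by
    intro R p n b
    by_cases hcase : ∀ g', ∃ η ∈ C R p n b, ∀ δ ∈ S η \ R, g' < δ
    · rcases Nat.eq_zero_or_pos n with rfl | hn
      · obtain ⟨η, hη, -⟩ := hcase w0
        obtain ⟨g, hg⟩ := exists_gt η
        refine ⟨g, fun γ _ _ => ⟨η, hη, hg, fun δ hδ => ?_⟩⟩
        rw [Finset.card_eq_zero.1 hη.2.2.2.1] at hδ
        exact absurd hδ (Finset.notMem_empty δ)
      · choose h hhC hh using hcase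
        have hf : ∀ g', ∃ f, ∀ δ ∈ S (h g') \ R, δ < f := by
          intro g'
          obtain ⟨f, hf⟩ := bdd fun δ : {δ // δ ∈ S (h g') \ R} => δ.1
          exact ⟨f, fun δ hδ => hf ⟨δ, hδ⟩⟩
        choose f hf using hf
        have hK := club_closure f w0
        set K : Set W1 := {δ | w0 < δ ∧ ∀ a < δ, f a < δ} with hKdef
        let e : W1 → Fin n → W1 := fun g' => enm w0 (S (h g') \ R) n
        have hcard : ∀ g', (S (h g') \ R).card = n := fun g' => (hhC g').2.2.2.1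
        have he : ∀ g' j, e g' j ∈ S (h g') \ R := fun g' j => enm_mem w0 (hcard g') j
        have hlt : ∀ g₁ ∈ K, ∀ g₂ ∈ K, g₁ < g₂ → ∀ j j', e g₁ j < e g₂ j' := by
          intro g₁ _ g₂ hg₂ h12 j j'
          exact ((hf g₁ _ (he g₁ j)).trans (hg₂.2 g₁ h12)).trans (hh g₂ _ (he g₂ j'))
        have hdis : ∀ g₁ ∈ K, ∀ g₂ ∈ K, ∀ j j', e g₁ j = e g₂ j' → g₁ = g₂ := by
          intro g₁ hg₁ g₂ hg₂ j j' heq
          rcases lt_trichotomy g₁ g₂ with h12 | h12 | h12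
          · exact absurd heq (hlt g₁ hg₁ g₂ hg₂ h12 j j').ne
          · exact h12
          · exact absurd heq (hlt g₂ hg₂ g₁ hg₁ h12 j' j).ne'
        obtain ⟨𝒜₀, h𝒜₀, hc, β, hβ⟩ := hfcw hM (n := n) (𝒜 := e '' K)
          (by rintro _ ⟨g', _, rfl⟩; exact enm_inj w0 (hcard g'))
          (by
            rintro _ ⟨g₁, hg₁, rfl⟩ _ ⟨g₂, hg₂, rfl⟩ j j' heq
            rw [hdis g₁ hg₁ g₂ hg₂ j j' heq])
          (by
            intro hcount
            apply club_unc hK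
            refine Set.countable_of_injective_of_countable_image (f := e) ?_ hcount
            intro g₁ hg₁ g₂ hg₂ heq
            exact hdis g₁ hg₁ g₂ hg₂ ⟨0, hn⟩ ⟨0, hn⟩ (congrFun heq _))
        have := hc.to_subtype
        have hchoose : ∀ F : 𝒜₀, ∃ g', e g' = F.1 := fun F => by
          obtain ⟨g', _, hg'⟩ := h𝒜₀ F.2
          exact ⟨g', hg'⟩
        choose q hq using hchoose
        obtain ⟨b1, hb1⟩ := bdd fun F : 𝒜₀ => h (q F)
        refine ⟨max β b1, fun γ hγ _ => ?_⟩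
        obtain ⟨F, hF, hFb⟩ := hβ γ ((le_max_left _ _).trans hγ) fun j => decide (j.1 ∈ b)
        refine ⟨h (q ⟨F, hF⟩), hhC _, (hb1 ⟨F, hF⟩).trans_le (le_max_right _ _),
          fun δ hδ => ?_⟩
        obtain ⟨j, hj⟩ := enm_surj w0 (hcard _) hδ
        have h1 := (hhC (q ⟨F, hF⟩)).2.2.2.2 j
        have h2 := hFb j
        have h3 : F j = enm w0 (S (h (q ⟨F, hF⟩)) \ R) n j := (congrFun (hq ⟨F, hF⟩) j).symm
        rw [h3] at h2
        rw [hj] at h1 h2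
        rw [h2]
        rw [Bool.eq_iff_iff, decide_eq_true_iff]
        exact h1.symm
    · push Not at hcase
      obtain ⟨g', hg'⟩ := hcase
      obtain ⟨g, hg⟩ := exists_gt g'
      refine ⟨g, fun γ _ h => ?_⟩
      obtain ⟨η', hη', h1⟩ := h
      obtain ⟨δ, hδ, hδg⟩ := hg' η' hη'
      exact absurd (hg.trans_le (h1 δ hδ)) (not_lt.2 hδg)
  choose g hg using hg
  have hG : ∀ R : Finset W1, ∃ G, ∀ p ∈ R.powerset, ∀ n b, g R p n b < G := by
    intro R
    obtain ⟨b, hb⟩ := bdd fun c : {p // p ∈ R.powerset} × ℕ × Finset ℕ => g R c.1.1 c.2.1 c.2.2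
    exact ⟨b, fun p hp n b' => hb (⟨p, hp⟩, n, b')⟩
  choose G hG using hG
  obtain ⟨β, -, hβ⟩ := exists_closed G w0
  refine ⟨Y ∩ Iio β, inter_subset_left, ?_, fun ξ hξ => ?_⟩
  · exact (Set.countable_coe_iff.1 (countable_Iio β)).mono inter_subset_right
  rcases lt_or_ge ξ β with hlt | hge
  · exact ⟨ξ, ⟨hξ, hlt⟩, fun _ _ => rfl⟩
  let R := (S ξ).filter (· < β)
  have hR : ∀ δ ∈ R, δ < β := fun δ hδ => (Finset.mem_filter.1 hδ).2
  have hRS : R ⊆ S ξ := Finset.filter_subset _ _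
  let p := R.filter fun δ => M ξ δ = true
  have hp : p ∈ R.powerset := Finset.mem_powerset.2 (Finset.filter_subset _ _)
  let n := (S ξ \ R).card
  let b := (Finset.range n).filter fun j => ∃ h : j < n, M ξ (enm w0 (S ξ \ R) n ⟨j, h⟩) = true
  have hξC : ξ ∈ C R p n b := by
    refine ⟨hξ, hRS, fun δ hδ => ?_, rfl, fun j => ?_⟩
    · simp only [p, Finset.mem_filter, hδ, true_and]
    · simp only [b, Finset.mem_filter, Finset.mem_range, j.2, true_and, exists_true_left]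
  have hgβ : g R p n b < β := (hG R p hp n b).trans (hβ R hR)
  obtain ⟨η, hη, hηg, hη2⟩ := hg R p n b ξ (hgβ.le.trans hge) ⟨ξ, hξC, fun δ hδ => by
    rw [Finset.mem_sdiff] at hδ
    by_contra hcon
    exact hδ.2 (Finset.mem_filter.2 ⟨hδ.1, (not_le.1 hcon).trans hgβ⟩)⟩
  refine ⟨η, ⟨hη.1, hηg.trans hgβ⟩, fun δ hδ => ?_⟩
  by_cases hδR : δ ∈ R
  · have h1 := hη.2.2.1 δ hδR
    have h2 := hξC.2.2.1 δ hδR
    exact Bool.eq_iff_iff.2 (h2.trans h1.symm)
  · exact hη2 δ (Finset.mem_sdiff.2 ⟨hδ, hδR⟩)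

end Q209.DSp
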