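import Mathlib
import Pool.Agent.Q209.DSp.HL

/-!
The topological space.
-/

set_option autoImplicit false

namespace Q209.DSp

open Set Cardinal Q209.Om Topology

variable {M : W1 → W1 → Bool}

/-- A point of the product agrees with `x` on the finite set `S`. -/
def Cy (x : W1 → Bool) (S : Finset W1) : Set (W1 → Bool) := {z | ∀ δ ∈ S, z δ = x δ}

theorem isOpen_Cy (x : W1 → Bool) (S : Finset W1) : IsOpen (Cy x S) := by
  have : Cy x S = ⋂ δ ∈ S, (fun z : W1 → Bool => z δ) ⁻¹' {x δ} := by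
    ext z; simp [Cy]
  rw [this]
  exact isOpen_biInter_finset fun δ _ => (isOpen_discrete _).preimage (continuous_apply δ)

theorem exists_Cy {V : Set (W1 → Bool)} (hV : IsOpen V) {x : W1 → Bool} (hx : x ∈ V) :
    ∃ S, Cy x S ⊆ V := by
  rw [isOpen_pi_iff] at hV
  obtain ⟨S, u, hu, hS⟩ := hV x hx
  refine ⟨S, fun z hz => hS fun δ hδ => ?_⟩
  rw [hz δ hδ]
  exact (hu δ hδ).2

theorem inj (hM : Mat M) : Function.Injective M := by
  intro ξ η h
  by_contra hne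
  obtain ⟨δ, h1, h2⟩ := hM.sep ξ η hne
  rw [h, h2] at h1
  exact Bool.false_ne_true h1

/-- Discrete sets of points are countable. -/
theorem discIn_countable (hM : Mat M) {D : Set W1} (hD : DiscIn M univ D) : D.Countable := by
  obtain ⟨𝒜₀, h𝒜₀, hc, h⟩ := hs hM 1 ((fun (ξ : W1) (_ : Fin 1) => ξ) '' D)
    (by rintro _ ⟨ξ, _, rfl⟩; exact Function.injective_of_subsingleton _)
    (by rintro _ ⟨ξ, _, rfl⟩ _ ⟨η, _, rfl⟩ j j' h; simp only at h; rw [h])
  refine (hc.image fun F => F 0).mono fun α hα => ?_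
  obtain ⟨S, -, hS⟩ := hD α hα
  obtain ⟨F', hF', hagr⟩ := h _ ⟨α, hα, rfl⟩ S
  obtain ⟨α', hα', rfl⟩ := h𝒜₀ hF'
  exact ⟨_, hF', hS α' hα' fun δ hδ => hagr δ hδ 0⟩

theorem hl (hM : Mat M) : HereditarilyLindelofSpace (range M) := by
  classical
  refine ⟨fun t _ => ?_⟩
  refine isLindelof_of_countable_subcover fun {ι} U hU hcov => ?_
  let Y : Set W1 := {ξ | (⟨M ξ, mem_range_self ξ⟩ : range M) ∈ t}
  have h1 : ∀ ξ ∈ Y, ∃ (i : ι) (S : Finset W1), ∀ η, (∀ δ ∈ S, M η δ = M ξ δ) →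
      (⟨M η, mem_range_self η⟩ : range M) ∈ U i := by
    intro ξ hξ
    obtain ⟨i, hi⟩ := mem_iUnion.1 (hcov hξ)
    obtain ⟨V, hV, hVU⟩ := isOpen_induced_iff.1 (hU i)
    have h2 : M ξ ∈ V := by
      rw [← hVU] at hi; exact hi
    obtain ⟨S, hS⟩ := exists_Cy hV h2
    refine ⟨i, S, fun η hη => ?_⟩
    rw [← hVU]
    exact hS hη
  rcases Y.eq_empty_or_nonempty with hY | ⟨ξ₀, hξ₀⟩
  · refine ⟨∅, countable_empty, fun x hx => ?_⟩
    obtain ⟨ξ, hξ⟩ := x.2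
    have : ξ ∈ Y := by
      change (⟨M ξ, mem_range_self ξ⟩ : range M) ∈ t
      have h3 : (⟨M ξ, mem_range_self ξ⟩ : range M) = x := Subtype.ext hξ
      rw [h3]; exact hx
    rw [hY] at this
    exact absurd this (notMem_empty _)
  · have hne : Nonempty ι := ⟨(h1 ξ₀ hξ₀).choose⟩
    choose! i S hiS using h1
    obtain ⟨Y₀, hY₀, hc, h⟩ := hl_core hM Y S
    refine ⟨i '' Y₀, hc.image _, fun x hx => ?_⟩
    obtain ⟨ξ, hξ⟩ := x.2
    have h3 : (⟨M ξ, mem_range_self ξ⟩ : range M) = x := Subtype.ext hξ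
    have : ξ ∈ Y := by
      change (⟨M ξ, mem_range_self ξ⟩ : range M) ∈ t
      rw [h3]; exact hx
    obtain ⟨η, hη, hagr⟩ := h ξ this
    rw [← h3]
    exact mem_biUnion (mem_image_of_mem i hη) (hiS η (hY₀ hη) ξ hagr)

theorem hsep (hM : Mat M) (t : Set (range M)) : ∃ c ⊆ t, c.Countable ∧ t ⊆ closure c := by
  classical
  let Y : Set W1 := {ξ | (⟨M ξ, mem_range_self ξ⟩ : range M) ∈ t}
  obtain ⟨𝒜₀, h𝒜₀, hc, h⟩ := hs hM 1 ((fun (ξ : W1) (_ : Fin 1) => ξ) '' Y)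
    (by rintro _ ⟨ξ, _, rfl⟩; exact Function.injective_of_subsingleton _)
    (by rintro _ ⟨ξ, _, rfl⟩ _ ⟨η, _, rfl⟩ j j' h; simp only at h; rw [h])
  refine ⟨(fun F : Fin 1 → W1 => (⟨M (F 0), mem_range_self _⟩ : range M)) '' 𝒜₀, ?_,
    hc.image _, fun x hx => ?_⟩
  · rintro _ ⟨F, hF, rfl⟩
    obtain ⟨ξ, hξ, rfl⟩ := h𝒜₀ hF
    exact hξ
  · rw [mem_closure_iff]
    intro U hU hxU
    obtain ⟨V, hV, rfl⟩ := isOpen_induced_iff.1 hU
    obtain ⟨ξ, hξ⟩ := x.2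
    have h3 : (⟨M ξ, mem_range_self ξ⟩ : range M) = x := Subtype.ext hξ
    have hξY : ξ ∈ Y := by
      change (⟨M ξ, mem_range_self ξ⟩ : range M) ∈ t
      rw [h3]; exact hx
    have h2 : M ξ ∈ V := by rw [← h3] at hxU; exact hxU
    obtain ⟨S, hS⟩ := exists_Cy hV h2
    obtain ⟨F', hF', hagr⟩ := h _ ⟨ξ, hξY, rfl⟩ S
    exact ⟨_, hS fun δ hδ => hagr δ hδ 0, ⟨F', hF', rfl⟩⟩

/-- The neighbourhood assignment. -/
noncomputable def nb (M : W1 → W1 → Bool) (x : range M) : Set (range M) :=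
  {z | z.1 x.2.choose = true}

theorem nb_open (x : range M) : IsOpen (nb M x) := by
  have : nb M x = (fun z : range M => z.1 x.2.choose) ⁻¹' {true} := rfl
  rw [this]
  exact (isOpen_discrete _).preimage ((continuous_apply _).comp continuous_subtype_val)

theorem nb_mem (hM : Mat M) (x : range M) : x ∈ nb M x := by
  change x.1 x.2.choose = true
  have h1 : M x.2.choose x.2.choose = x.1 x.2.choose := congrFun x.2.choose_spec x.2.choose
  rw [← h1]
  exact hM.diag _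

theorem discIn_of_discrete {D : Set (range M)} (hD : DiscreteTopology D) :
    DiscIn M univ {ξ | (⟨M ξ, mem_range_self ξ⟩ : range M) ∈ D} ∨ ¬ Function.Injective M := by
  by_cases hinj : Function.Injective M
  swap
  · exact Or.inr hinj
  left
  intro α hα
  have h1 : IsOpen ({⟨⟨M α, mem_range_self α⟩, hα⟩} : Set D) := isOpen_discrete _
  obtain ⟨V, hV, hV2⟩ := isOpen_induced_iff.1 h1
  obtain ⟨V', hV', rfl⟩ := isOpen_induced_iff.1 hV
  have h2 : M α ∈ V' := by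
    have : (⟨⟨M α, mem_range_self α⟩, hα⟩ : D) ∈ ({⟨⟨M α, mem_range_self α⟩, hα⟩} : Set D) :=
      mem_singleton _
    rw [← hV2] at this
    exact this
  obtain ⟨S, hS⟩ := exists_Cy hV' h2
  refine ⟨S, fun _ _ => mem_univ _, fun α' hα' hagr => ?_⟩
  have h3 : (⟨⟨M α', mem_range_self α'⟩, hα'⟩ : D) ∈
      ({⟨⟨M α, mem_range_self α⟩, hα⟩} : Set D) := by
    rw [← hV2]
    exact hS hagr
  have h4 := congrArg (fun z : D => z.1.1) (mem_singleton_iff.1 h3)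
  exact hinj h4

theorem not_kernel (hM : Mat M) (m : ℕ) (D : Fin m → Set (range M))
    (hD : ∀ j, DiscreteTopology (D j)) : (⋃ j, ⋃ x ∈ D j, nb M x) ≠ Set.univ := by
  have h1 : ∀ j, DiscIn M univ {ξ | (⟨M ξ, mem_range_self ξ⟩ : range M) ∈ D j} := fun j =>
    (discIn_of_discrete (hD j)).resolve_right fun h => h (inj hM)
  obtain ⟨γ, hγ⟩ := hM.kill (⋃ j, {ξ | (⟨M ξ, mem_range_self ξ⟩ : range M) ∈ D j})
    (countable_iUnion fun j => discIn_countable hM (h1 j)) ⟨m, _, h1, rfl⟩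
  intro hcov
  have h2 : (⟨M γ, mem_range_self γ⟩ : range M) ∈ ⋃ j, ⋃ x ∈ D j, nb M x := by
    rw [hcov]; exact mem_univ _
  simp only [mem_iUnion] at h2
  obtain ⟨j, x, hx, hxγ⟩ := h2
  have h3 : M γ x.2.choose = true := hxγ
  have h4 : x.2.choose ∈ ⋃ j, {ξ | (⟨M ξ, mem_range_self ξ⟩ : range M) ∈ D j} := by
    refine mem_iUnion.2 ⟨j, ?_⟩
    change (⟨M x.2.choose, mem_range_self _⟩ : range M) ∈ D j
    have h5 : (⟨M x.2.choose, mem_range_self _⟩ : range M) = x := Subtype.ext x.2.choose_spec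
    rw [h5]
    exact hx
  rw [hγ _ h4] at h3
  exact Bool.false_ne_true h3

/-- the main theorem -/
theorem main (hCH : continuum.{0} = aleph 1) :
    ∃ X : Set (W1 → Bool), HereditarilyLindelofSpace X ∧
      (∀ t : Set X, ∃ c ⊆ t, c.Countable ∧ t ⊆ closure c) ∧
      ∃ N : X → Set X, (∀ x, IsOpen (N x) ∧ x ∈ N x) ∧
        ∀ (m : ℕ) (D : Fin m → Set X), (∀ j, DiscreteTopology (D j)) →
          (⋃ j, ⋃ x ∈ D j, N x) ≠ Set.univ := by
  obtain ⟨M, hM⟩ := exists_mat hCH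
  exact ⟨range M, hl hM, hsep hM, nb M, fun x => ⟨nb_open x, nb_mem hM x⟩, not_kernel hM⟩

end Q209.DSp
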