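import Mathlib
import Pool.Agent.Q209.DSp.Top

/-!
The space is an HFC_w space; its subspaces are paracompact.
-/

set_option autoImplicit false

namespace Q209.DSp

open Set Cardinal Q209.Om Topology

variable {M : W1 → W1 → Bool}

/-- The basic clopen set `[F * b]` of `2^L`: the points whose value at the `i`-th element of `F`, in
increasing order, is `b i`. -/
def Cyl {L : Type} [LinearOrder L] (F : Finset L) {n : ℕ} (h : F.card = n) (b : Fin n → Bool) :
    Set (L → Bool) :=
  {x | ∀ i : Fin n, x (F.orderEmbOfFin h i) = b i}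

/-- `X ⊆ 2^L` is an `HFC_w` space: for each `n` and each uncountable family `A` of pairwise disjoint
`n`-element subsets of `L` there is a countable `A₀ ⊆ A` such that for all `b : n → 2` only countably
many points of `X` lie outside all the sets `[F * b]`, `F ∈ A₀`. -/
def HFCw {L : Type} [LinearOrder L] (X : Set (L → Bool)) : Prop :=
  ∀ (n : ℕ) (A : Set (Finset L)) (hn : ∀ F ∈ A, F.card = n),
    ¬ A.Countable → A.PairwiseDisjoint id →
    ∃ (A₀ : Set (Finset L)) (hA₀ : A₀ ⊆ A), A₀.Countable ∧ ∀ b : Fin n → Bool,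
      (X \ ⋃ (F : Finset L) (hF : F ∈ A₀), Cyl F (hn F (hA₀ hF)) b).Countable

/-- Dually discrete spaces: each neighbourhood assignment has a discrete kernel. -/
def DuallyDiscrete (Y : Type) [TopologicalSpace Y] : Prop :=
  ∀ U : Y → Set Y, (∀ x, IsOpen (U x) ∧ x ∈ U x) →
    ∃ D : Set Y, DiscreteTopology D ∧ ⋃ x ∈ D, U x = Set.univ

theorem hfcw_range (hM : Mat M) : HFCw (range M) := by
  classical
  obtain ⟨w0⟩ : Nonempty W1 := by
    rw [← mk_ne_zero_iff, mk_W1]
    exact (aleph_pos 1).ne'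
  intro n A hn hunc hdisj
  have hn0 : 0 < n := by
    rcases Nat.eq_zero_or_pos n with rfl | h
    · exfalso
      apply hunc
      refine (countable_singleton (∅ : Finset W1)).mono fun F hF => ?_
      exact Finset.card_eq_zero.1 (hn F hF)
    · exact h
  have hinjA : InjOn (fun F => enm w0 F n) A := by
    intro F hF F' hF' heq
    ext δ
    constructor
    · intro h
      obtain ⟨j, rfl⟩ := enm_surj w0 (hn F hF) h
      have h1 : enm w0 F n j = enm w0 F' n j := congrFun heq j
      rw [h1]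
      exact enm_mem w0 (hn F' hF') j
    · intro h
      obtain ⟨j, rfl⟩ := enm_surj w0 (hn F' hF') h
      have h1 : enm w0 F n j = enm w0 F' n j := congrFun heq j
      rw [← h1]
      exact enm_mem w0 (hn F hF) j
  obtain ⟨𝒜₀, h𝒜₀, hc, β, hβ⟩ := hfcw hM (n := n) (𝒜 := (fun F => enm w0 F n) '' A)
    (by rintro _ ⟨F, hF, rfl⟩; exact enm_inj w0 (hn F hF))
    (by
      rintro _ ⟨F, hF, rfl⟩ _ ⟨F', hF', rfl⟩ j j' heq
      have h1 : F = F' := by
        by_contra hne
        have h2 := hdisj hF hF' hne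
        rw [Function.onFun, id, id, Finset.disjoint_left] at h2
        refine h2 (enm_mem w0 (hn F hF) j) ?_
        simp only at heq
        rw [heq]
        exact enm_mem w0 (hn F' hF') j'
      rw [h1])
    (fun hcount => hunc (Set.countable_of_injective_of_countable_image hinjA hcount))
  refine ⟨{F | F ∈ A ∧ enm w0 F n ∈ 𝒜₀}, fun F hF => hF.1, ?_, fun b => ?_⟩
  · refine Set.countable_of_injective_of_countable_image (hinjA.mono fun F hF => hF.1)
      (hc.mono ?_)
    rintro _ ⟨F, hF, rfl⟩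
    exact hF.2
  · have h1 : (Iio β).Countable := Set.countable_coe_iff.1 (countable_Iio β)
    refine (h1.image M).mono ?_
    rintro x ⟨⟨γ, rfl⟩, hx⟩
    by_contra hcon
    apply hx
    have hγ : β ≤ γ := by
      by_contra h
      exact hcon ⟨γ, not_le.1 h, rfl⟩
    obtain ⟨G, hG, hGb⟩ := hβ γ hγ b
    obtain ⟨F, hF, rfl⟩ := h𝒜₀ hG
    refine mem_iUnion₂.2 ⟨F, ⟨hF, hG⟩, fun i => ?_⟩
    have h2 : M γ (enm w0 F n i) = b i := hGb i
    rw [enm_eq w0 (hn F hF)] at h2
    exact h2

theorem not_duallyDiscrete (hM : Mat M) : ¬ DuallyDiscrete (range M) := by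
  intro h
  obtain ⟨D, hD, hU⟩ := h (nb M) fun x => ⟨nb_open x, nb_mem hM x⟩
  apply not_kernel hM 1 (fun _ => D) (fun _ => hD)
  rw [← hU]
  ext z
  simp

/-- A hereditarily Lindelöf subspace of a Cantor cube is hereditarily paracompact. -/
theorem paracompact_of_hl {L : Type} (X : Set (L → Bool)) [HereditarilyLindelofSpace X]
    (Y : Set X) : ParacompactSpace Y := by
  classical
  -- basic clopen sets of `Y`
  let B : Y → Finset L → Set Y := fun y S => {z | ∀ δ ∈ S, z.1.1 δ = y.1.1 δ}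
  have hBclopen : ∀ y S, IsClopen (B y S) := by
    intro y S
    have : B y S = ⋂ δ ∈ S, (fun z : Y => z.1.1 δ) ⁻¹' {y.1.1 δ} := by
      ext z; simp [B]
    rw [this]
    exact isClopen_biInter_finset fun δ _ => (isClopen_discrete _).preimage
      ((continuous_apply δ).comp (continuous_subtype_val.comp continuous_subtype_val))
  have hB : ∀ (V : Set Y), IsOpen V → ∀ y ∈ V, ∃ S, B y S ⊆ V := by
    intro V hV y hy
    obtain ⟨V', hV', rfl⟩ := isOpen_induced_iff.1 hV
    obtain ⟨V'', hV'', rfl⟩ := isOpen_induced_iff.1 hV'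
    obtain ⟨S, u, hu, hS⟩ := (isOpen_pi_iff.1 hV'') y.1.1 hy
    refine ⟨S, fun z hz => hS fun δ hδ => ?_⟩
    rw [hz δ hδ]
    exact (hu δ hδ).2
  have hLin : IsLindelof (univ : Set Y) := by
    rw [isLindelof_univ_iff]
    have h1 : IsLindelof Y := HereditarilyLindelofSpace.isLindelof Y
    exact isLindelof_iff_lindelofSpace.1 h1
  refine ⟨fun α s hs hcov => ?_⟩
  have h1 : ∀ y : Y, ∃ i S, B y S ⊆ s i := by
    intro y
    have hy : y ∈ ⋃ i, s i := by rw [hcov]; exact mem_univ _
    obtain ⟨i, hi⟩ := mem_iUnion.1 hy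
    obtain ⟨S, hS⟩ := hB _ (hs i) y hi
    exact ⟨i, S, hS⟩
  choose i S hiS using h1
  obtain ⟨t, htc, ht⟩ := hLin.elim_countable_subcover (fun y => B y (S y))
    (fun y => (hBclopen y (S y)).isOpen)
    (fun y _ => mem_iUnion.2 ⟨y, fun _ _ => rfl⟩)
  rcases t.eq_empty_or_nonempty with rfl | hne
  · refine ⟨Empty, fun e => e.elim, fun e => e.elim, ?_, fun y => ⟨univ, Filter.univ_mem, ?_⟩,
      fun e => e.elim⟩
    · rw [← univ_subset_iff]
      intro y hy
      have := ht hy
      simp at this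
    · exact Set.toFinite _
  obtain ⟨e, rfl⟩ := htc.exists_eq_range hne
  let C : ℕ → Set Y := fun n => B (e n) (S (e n))
  have hC : ∀ n, IsClopen (C n) := fun n => hBclopen _ _
  let P : ℕ → Set Y := fun n => C n \ ⋃ m ∈ Finset.range n, C m
  have hP : ∀ n, IsClopen (P n) := fun n =>
    (hC n).diff (isClopen_biUnion_finset fun m _ => hC m)
  refine ⟨ℕ, P, fun n => (hP n).isOpen, ?_, fun y => ?_, fun n => ⟨i (e n), fun z hz => hiS _ hz.1⟩⟩
  · rw [← univ_subset_iff]
    intro y hy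
    have h2 : ∃ n, y ∈ C n := by
      obtain ⟨z, ⟨n, rfl⟩, hz⟩ := mem_iUnion₂.1 (ht hy)
      exact ⟨n, hz⟩
    refine mem_iUnion.2 ⟨Nat.find h2, Nat.find_spec h2, fun hmem => ?_⟩
    obtain ⟨m, hm, hym⟩ := mem_iUnion₂.1 hmem
    exact Nat.find_min h2 (Finset.mem_range.1 hm) hym
  · have hy : y ∈ ⋃ x ∈ range e, B x (S x) := ht (mem_univ y)
    obtain ⟨z, ⟨n, rfl⟩, hz⟩ := mem_iUnion₂.1 hy
    refine ⟨C n, (hC n).isOpen.mem_nhds hz, (Set.finite_Iic n).subset fun m hm => ?_⟩
    obtain ⟨w, hw, hwC⟩ := hm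
    by_contra hmn
    exact hw.2 (mem_iUnion₂.2 ⟨n, Finset.mem_range.2 (not_le.1 hmn), hwC⟩)

end Q209.DSp
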